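import Pool.Agent.helper91.SI.Spec3

/-!
# si:CYM: the two kinds of closed walks of slides
-/

set_option autoImplicit false

namespace Pool.Agent.helper91.SI

open Pool.Agent.helper20.IG (IsIndepDom IsISet iGraph)

theorem CYM_val5 : ∀ i : ZMod 5, (i + 1).val = i.val + 1 ∨ (i.val = 4 ∧ (i + 1).val = 0) := by decide

theorem CYM_val7 : ∀ i : ZMod 7, (i + 1).val = i.val + 1 ∨ (i.val = 6 ∧ (i + 1).val = 0) := by decide

theorem CYM_add5 : ∀ i : ZMod 5, i + 4 + 1 = i := by decide

theorem CYM_diff5 : ∀ i j : ZMod 5, i ≠ j → j = i + 1 ∨ j = i + 2 ∨ i = j + 1 ∨ i = j + 2 := by decide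

theorem CYM_diff7 : ∀ i j : ZMod 7, i ≠ j →
    j = i + 1 ∨ j = i + 2 ∨ j = i + 3 ∨ i = j + 1 ∨ i = j + 2 ∨ i = j + 3 := by decide

/-- a closed walk of length five in a triangle-free graph has different vertices -/
theorem CYM_five (V : Type) (G : SimpleGraph V) (hT : NoTri G) (q : ZMod 5 → V)
    (hq : ∀ i, G.Adj (q i) (q (i + 1))) : Function.Injective q := by
  have key : ∀ i, q i ≠ q (i + 2) := by
    intro i h
    have h1 := hq (i + 2)
    have h2 := hq (i + 3)
    have h3 := hq (i + 4)
    rw [show i + 2 + 1 = i + 3 by ring] at h1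
    rw [show i + 3 + 1 = i + 4 by ring] at h2
    rw [CYM_add5, h] at h3
    exact hT _ _ _ h1 h2 h3.symm
  have loop : ∀ i, q i ≠ q (i + 1) := fun i => (hq i).ne
  intro i j hij
  by_contra hne
  rcases CYM_diff5 i j hne with h | h | h | h
  · rw [h] at hij
    exact loop _ hij
  · rw [h] at hij
    exact key _ hij
  · rw [h] at hij
    exact loop _ hij.symm
  · rw [h] at hij
    exact key _ hij.symm

/-- coincidences in a closed walk of length seven -/
theorem CYM_coinc (V : Type) (G : SimpleGraph V) (hT : NoTri G) (p : ZMod 7 → V)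
    (hp : ∀ i, G.Adj (p i) (p (i + 1))) : Function.Injective p ∨ ∃ k, p k = p (k + 2) := by
  by_cases hinj : Function.Injective p
  · exact Or.inl hinj
  · right
    have tri : ∀ i, p i ≠ p (i + 3) := by
      intro i h
      have h1 := hp i
      have h2 := hp (i + 1)
      have h3 := hp (i + 2)
      rw [show i + 1 + 1 = i + 2 by ring] at h2
      rw [show i + 2 + 1 = i + 3 by ring, ← h] at h3
      exact hT _ _ _ h1 h2 h3.symm
    have loop : ∀ i, p i ≠ p (i + 1) := fun i => (hp i).ne
    unfold Function.Injective at hinj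
    push Not at hinj
    obtain ⟨i, j, hij, hne⟩ := hinj
    rcases CYM_diff7 i j hne with h | h | h | h | h | h
    · rw [h] at hij
      exact absurd hij (loop _)
    · rw [h] at hij
      exact ⟨i, hij⟩
    · rw [h] at hij
      exact absurd hij (tri _)
    · rw [h] at hij
      exact absurd hij.symm (loop _)
    · rw [h] at hij
      exact ⟨j, hij.symm⟩
    · rw [h] at hij
      exact absurd hij.symm (tri _)

theorem CYM_cast : ∀ k : ZMod 7, ∀ i : ZMod 5,
    k + 2 + ((i.val : ℕ) : ZMod 7) ≠ k ∧ k + 2 + ((i.val : ℕ) : ZMod 7) ≠ k + 1 := by decide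

theorem CYM_castinj : ∀ k : ZMod 7, ∀ i j : ZMod 5,
    k + 2 + ((i.val : ℕ) : ZMod 7) = k + 2 + ((j.val : ℕ) : ZMod 7) → i = j := by decide

theorem CYM_caststep : ∀ k : ZMod 7, ∀ i : ZMod 5,
    k + 2 + ((i.val : ℕ) : ZMod 7) + 1 = k + 2 + (((i + 1).val : ℕ) : ZMod 7) ∨
      (k + 2 + ((i.val : ℕ) : ZMod 7) + 1 = k ∧ k + 2 + (((i + 1).val : ℕ) : ZMod 7) = k + 2) := by decide

theorem CYM (hPRM : PRM_stmt) : CYM_stmt := by
  intro V G s τ hT hadj
  have hfix : ∀ t, τ t ≠ t := by
    intro t h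
    have := hadj t
    rw [h] at this
    exact G.loopless.irrefl _ this
  rcases hPRM τ hfix with ⟨t, ht⟩ | ⟨t, ht⟩ | ⟨h7, hsurj⟩
  · exfalso
    have h1 := hadj t
    have h2 := hadj (τ t)
    have h3 := hadj (τ (τ t))
    rw [ht] at h3
    exact hT _ _ _ h1 h2 h3.symm
  · right
    obtain ⟨ρ, hρ⟩ : ∃ ρ : ZMod 5 → ZMod 7, ρ = fun i => (τ : ZMod 7 → ZMod 7)^[i.val] t := ⟨_, rfl⟩
    have hstep : ∀ i, τ (ρ i) = ρ (i + 1) := by
      intro i
      rw [hρ]
      show τ ((τ : ZMod 7 → ZMod 7)^[i.val] t) = (τ : ZMod 7 → ZMod 7)^[(i + 1).val] t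
      rw [← Function.iterate_succ_apply' (⇑τ)]
      rcases CYM_val5 i with h | ⟨h, h'⟩
      · rw [h]
      · rw [h, h']
        exact ht
    have hq : ∀ i, G.Adj (s (ρ i)) (s (ρ (i + 1))) := by
      intro i
      rw [← hstep]
      exact hadj _
    have hqinj := CYM_five V G hT (fun i => s (ρ i)) hq
    have hρinj : Function.Injective ρ := by
      intro i j hij
      apply hqinj
      show s (ρ i) = s (ρ j)
      rw [hij]
    have hcard : (Finset.univ.image ρ).card = 5 := by
      rw [Finset.card_image_of_injective _ hρinj, Finset.card_univ, ZMod.card]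
    obtain ⟨a, ha⟩ : ∃ a, a ∉ Finset.univ.image ρ := by
      by_contra hno
      push Not at hno
      have : (Finset.univ.image ρ) = Finset.univ := Finset.eq_univ_of_forall hno
      rw [this, Finset.card_univ, ZMod.card] at hcard
      omega
    have hcl : ∀ c, c ∉ Finset.univ.image ρ → τ c ∉ Finset.univ.image ρ := by
      intro c hc hc'
      obtain ⟨i, _, hi⟩ := Finset.mem_image.1 hc'
      apply hc
      refine Finset.mem_image.2 ⟨i - 1, Finset.mem_univ _, ?_⟩
      apply τ.injective
      rw [hstep, sub_add_cancel, hi]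
    obtain ⟨b, hb⟩ : ∃ b, b = τ a := ⟨_, rfl⟩
    have hbim : b ∉ Finset.univ.image ρ := by
      rw [hb]
      exact hcl a ha
    have hab : a ≠ b := by
      rw [hb]
      exact (hfix a).symm
    have huniv : insert a (insert b (Finset.univ.image ρ)) = Finset.univ := by
      apply Finset.eq_univ_of_card
      rw [Finset.card_insert_of_notMem, Finset.card_insert_of_notMem hbim, hcard, ZMod.card]
      rw [Finset.mem_insert, not_or]
      exact ⟨hab, ha⟩
    have hba : τ b = a := by
      have h1 : τ b ∈ insert a (insert b (Finset.univ.image ρ)) := by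
        rw [huniv]
        exact Finset.mem_univ _
      rw [Finset.mem_insert, Finset.mem_insert] at h1
      rcases h1 with h | h | h
      · exact h
      · exact absurd h (hfix b)
      · exact absurd h (hcl b hbim)
    refine ⟨fun i => s (ρ i), s a, s b, a, b, ρ, hqinj, hq, hρinj, hab, ?_, ?_, rfl, ?_, rfl, ?_⟩
    · intro i
      constructor
      · rintro rfl
        exact ha (Finset.mem_image_of_mem _ (Finset.mem_univ _))
      · intro h
        exact hbim (h ▸ Finset.mem_image_of_mem _ (Finset.mem_univ _))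
    · intro i
      refine ⟨rfl, ?_⟩
      rw [hstep]
    · rw [hb]
    · rw [hba]
  · obtain ⟨σ, hσ⟩ : ∃ σ : ZMod 7 → ZMod 7, σ = fun i => (τ : ZMod 7 → ZMod 7)^[i.val] 0 := ⟨_, rfl⟩
    have hstep : ∀ i, τ (σ i) = σ (i + 1) := by
      intro i
      rw [hσ]
      show τ ((τ : ZMod 7 → ZMod 7)^[i.val] 0) = (τ : ZMod 7 → ZMod 7)^[(i + 1).val] 0
      rw [← Function.iterate_succ_apply' (⇑τ)]
      rcases CYM_val7 i with h | ⟨h, h'⟩
      · rw [h]
      · rw [h, h', Equiv.Perm.iterate_eq_pow]
        exact h7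
    have hσs : Function.Surjective σ := by
      intro j
      obtain ⟨k, hk⟩ := hsurj j
      refine ⟨((k : ℕ) : ZMod 7), ?_⟩
      rw [hσ]
      show (τ : ZMod 7 → ZMod 7)^[(((k : ℕ) : ZMod 7)).val] 0 = j
      rw [ZMod.val_natCast, Nat.mod_eq_of_lt k.2, Equiv.Perm.iterate_eq_pow]
      exact hk
    have hσb : Function.Bijective σ := (Finite.injective_iff_surjective.2 hσs |>.bijective_of_finite)
    have hp : ∀ i, G.Adj (s (σ i)) (s (σ (i + 1))) := by
      intro i
      rw [← hstep]
      exact hadj _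
    rcases CYM_coinc V G hT (fun i => s (σ i)) hp with hinj | ⟨k, hk⟩
    · left
      refine ⟨fun i => s (σ i), (Equiv.ofBijective σ hσb).symm, ⟨hinj, hp⟩, ?_⟩
      intro t
      have e : σ ((Equiv.ofBijective σ hσb).symm t) = t := (Equiv.ofBijective σ hσb).apply_symm_apply t
      refine ⟨?_, ?_⟩
      · show s t = s (σ ((Equiv.ofBijective σ hσb).symm t))
        rw [e]
      · show s (τ t) = s (σ ((Equiv.ofBijective σ hσb).symm t + 1))
        rw [← hstep, e]
    · right
      have hk' : s (σ k) = s (σ (k + 2)) := hk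
      have hstep' : ∀ i : ZMod 5, s (τ (σ (k + 2 + ((i.val : ℕ) : ZMod 7)))) =
          s (σ (k + 2 + (((i + 1).val : ℕ) : ZMod 7))) := by
        intro i
        rw [hstep]
        rcases CYM_caststep k i with h | ⟨h, h'⟩
        · rw [h]
        · rw [h, h', hk']
      have hq : ∀ i : ZMod 5, G.Adj (s (σ (k + 2 + ((i.val : ℕ) : ZMod 7))))
          (s (σ (k + 2 + (((i + 1).val : ℕ) : ZMod 7)))) := by
        intro i
        rw [← hstep']
        exact hadj _
      refine ⟨fun i => s (σ (k + 2 + ((i.val : ℕ) : ZMod 7))), s (σ k), s (σ (k + 1)), σ k, σ (k + 1),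
        fun i => σ (k + 2 + ((i.val : ℕ) : ZMod 7)), CYM_five V G hT _ hq, hq, ?_, ?_, ?_, ?_, rfl, ?_, rfl, ?_⟩
      · intro i j hij
        exact CYM_castinj k i j (hσb.1 hij)
      · intro h
        have h1 := hσb.1 h
        have h2 : ∀ k : ZMod 7, k ≠ k + 1 := by decide
        exact h2 k h1
      · intro i
        have h1 := CYM_cast k i
        exact ⟨fun h => h1.1 (hσb.1 h), fun h => h1.2 (hσb.1 h)⟩
      · intro i
        exact ⟨rfl, hstep' i⟩
      · rw [hstep]
      · rw [hstep, show k + 1 + 1 = k + 2 by ring]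
        exact hk'.symm

end Pool.Agent.helper91.SI
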